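import Pool.Agent.FlipB_h28.HT4

/-!
# Infinite sequences of flips of varieties smooth in low codimension

A complete normal variety over the field `k` of characteristic zero with function field `K` is
the set `X` of the local rings of its points; flips, discrepancies and prime divisors are defined
in `Pool.Agent.Flip_h28.Defs`, projective varieties (`IsProj`) in `Pool.Agent.Flip_h28.AlgDefs`.
The codimension of a point is the Krull dimension of its local ring.  `X i → Y i` is a birational
contraction for which a negative multiple of `K` is relatively ample, it is not assumed to be
small, and `Y i` is not `ℚ`-Gorenstein.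

For a natural number `c` the variety `X` is called good (`Good b c X`) if it is smooth in
codimension at most `c` and the discrepancies of the prime divisors whose centre is a singular
point are at least `c - 1`, only finitely many being less than `c`.  Smooth varieties are good for
all `c`.

Theorem.  Let `X 0, X 1, ...` be an infinite sequence of flips of projective varieties of
dimension `n`, all `X i` being good for `c`.  Assume that the flipped points of codimension
`c + 1` all of whose discrepancies are greater than `c - 1` are smooth and, if `n ≥ 2 c + 2`, that
all points of codimension at most `c + 1` of the `X i` are smooth or that the `X i` have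
resolutions.  Then `n ≥ 2 c + 3`, and for all but finitely many `i` the varieties `X i` and
`X (i + 1)` have the same points of codimension at most `c + 1`.

For smooth varieties all conditions hold for every `c` (take `c = n`): there is no infinite
sequence of flips of smooth projective varieties, in any dimension.

The proof uses the discrepancies of the blow ups of flipped points, and a bound for the number of
points of codimension `d` which can be removed by a sequence of birational modifications not
creating points of codimension at most `d`, by the dimension of the cohomology of the image of the
sheaf of `(n - d)`-forms (`Flip28.bound_Bd`, `Flip28.bound_Bd_rel`).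
-/

open scoped KaehlerDifferential

universe u

namespace Pool.Agent.Results.MP_a06248_ag.SmoothFlips

open Flip28

/-- Infinite sequences of flips of projective varieties which are smooth in codimension at most
`c` and have discrepancies at least `c - 1` at their singular points. -/
theorem result {k K : Type u} [Field k] [CharZero k] [Field K] [Algebra k K]
    [Algebra.EssFiniteType k K] {n : ℕ} (b : Module.Basis (Fin n) K Ω[K⁄k]) {c : ℕ}
    (X Y : ℕ → Set (Subalgebra k K)) (hX : IsCompleteNormal (X 0))
    (hP : ∀ i, IsProj (X i)) (hf : ∀ i, IsFlip b (X i) (Y i) (X (i + 1)))
    (hg : ∀ i, Good b c (X i))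
    (h3 : ∀ i, ∀ F ∈ X (i + 1), F ∉ X i → ringKrullDim F = ((c + 1 : ℕ) : WithBot ℕ∞) →
      (∀ E, IsPrimeDiv E → Dom F E → (c : ℚ) - 1 < disc b (X (i + 1)) E) →
      Algebra.FormallySmooth k F)
    (h4 : 2 * c + 2 ≤ n → (∀ i, ∀ A ∈ X i, ringKrullDim A ≤ ((c + 1 : ℕ) : WithBot ℕ∞) →
      Algebra.FormallySmooth k A) ∨ ∀ i, HasRes (X i)) :
    2 * c + 3 ≤ n ∧ ∃ i1, ∀ i, i1 ≤ i → ∀ A : Subalgebra k K,
      ringKrullDim A ≤ ((c + 1 : ℕ) : WithBot ℕ∞) → (A ∈ X i ↔ A ∈ X (i + 1)) :=
  flips_all_good b hX hP hf hg h3 h4

end Pool.Agent.Results.MP_a06248_ag.SmoothFlips
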